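import Pool.Agent.Lib.MP_859dd5_ag.Mg.G061
import Pool.Agent.Lib.MP_859dd5_ag.Mg.G058

/-!
# Descent of unramified classes along a Galois extension
-/

namespace UnrG

universe u v w

open Polynomial
open scoped Classical

variable {m : ℕ}

/-- Relation between the valuation of a discrete valuation ring and a valuation above it. -/
lemma ofDVR_compat {K L : Type u} [Field K] [Field L] (f : K →+* L) (A : ValuationSubring K)
    [IsDiscreteValuationRing A] (ϖ : A) (hϖ : Irreducible ϖ) {κ' : Type u} [Field κ']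
    (D' : DVal L κ') (j : IsLocalRing.ResidueField A →+* κ') (e : ℤ) (c : κ')
    (hu : ∀ a : A, IsUnit a → D'.v (f a) = 0 ∧ D'.ρ (f a) = j (IsLocalRing.residue A a))
    (hϖv : D'.v (f ϖ) = e) (hϖρ : D'.ρ (f ϖ) = c) {a : K} (ha : a ≠ 0) :
    D'.v (f a) = e * (DVal.ofDVR A ϖ hϖ).v a ∧
      D'.ρ (f a) = j ((DVal.ofDVR A ϖ hϖ).ρ a) * c ^ ((DVal.ofDVR A ϖ hϖ).v a) := by
  obtain ⟨u, w, hu', hw', h1, h2⟩ : Rep (IsLocalRing.residue A) ϖ a ((DVal.ofDVR A ϖ hϖ).v a)
    ((DVal.ofDVR A ϖ hϖ).ρ a) := DVal.ofPrime_rep (K := K) (IsLocalRing.residue A) ϖ _ _ _ ha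
  obtain ⟨n, hn⟩ : ∃ n, n = (DVal.ofDVR A ϖ hϖ).v a := ⟨_, rfl⟩
  rw [← hn] at h1 ⊢
  have hu0 : (u : K) ≠ 0 := by
    have h3 := ((residue_ne_zero_iff A).mp hu').ne_zero
    simpa using h3
  have hw0 : (w : K) ≠ 0 := by
    have h3 := ((residue_ne_zero_iff A).mp hw').ne_zero
    simpa using h3
  have hϖ0 : (ϖ : K) ≠ 0 := by simpa using hϖ.ne_zero
  have h1' : a = (ϖ : K) ^ n * ((u : K) / (w : K)) := h1
  obtain ⟨uv, uρ⟩ := hu u ((residue_ne_zero_iff A).mp hu')
  obtain ⟨wv, wρ⟩ := hu w ((residue_ne_zero_iff A).mp hw')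
  have eu := (_root_.map_ne_zero f).mpr hu0
  have ew := (_root_.map_ne_zero f).mpr hw0
  have eϖ := (_root_.map_ne_zero f).mpr hϖ0
  rw [h2, h1', map_mul, map_zpow₀, map_div₀]
  refine ⟨?_, ?_⟩
  · rw [D'.v_mul _ _ (zpow_ne_zero _ eϖ) (div_ne_zero eu ew), D'.v_zpow eϖ, D'.v_div eu ew,
      uv, wv, hϖv]
    ring
  · rw [map_mul, map_zpow₀, map_div₀, hϖρ, uρ, wρ, map_div₀, mul_comm]

section descent

variable {K L : Type u} [Field K] [Field L] [Algebra K L] [FiniteDimensional K L] [IsGalois K L]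

/-- For a Galois extension of degree `N`, if the restriction of `y` is unramified then `N y` is
unramified. -/
theorem unr_smul_of_map (hm : Any m) {y : KM m K} (hy : Unr (KM.map m (algebraMap K L) y)) :
    Unr (Module.finrank K L • y) := by
  intro A hA
  obtain ⟨ϖ, hϖ⟩ := IsDiscreteValuationRing.exists_irreducible A
  rw [unrAt_iff_res A ϖ hϖ hm]
  -- the integral closure
  set O := integralClosure A L with hO
  have hded : IsDedekindDomain O := integralClosure.isDedekindDomain A K L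
  have hfin : Module.Finite A O := IsIntegralClosure.finite A K L O
  have hfr : IsFractionRing O L := integralClosure.isFractionRing_of_finite_extension K L
  have hfree : Module.Free A O := IsIntegralClosure.module_free A K L O
  letI : MulSemiringAction (L ≃ₐ[K] L) O := IsIntegralClosure.MulSemiringAction A K L O
  have hgal : IsGaloisGroup (L ≃ₐ[K] L) A O := IsGaloisGroup.of_isFractionRing _ _ _ K L
  obtain ⟨P, hP⟩ := Ideal.exists_maximal O
  set p := IsLocalRing.maximalIdeal A with hp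
  have hover : ∀ I : Ideal O, I.IsMaximal → I.LiesOver p := by
    intro I hI
    constructor
    exact (IsLocalRing.eq_maximalIdeal (Ideal.isMaximal_comap_of_isIntegral_of_isMaximal I)).symm
  have hPp : P.LiesOver p := hover P hP
  have hpmap : p.map (algebraMap A O) = Ideal.span {algebraMap A O ϖ} := by
    rw [hp, hϖ.maximalIdeal_eq, Ideal.map_span, Set.image_singleton]
  have hϖO : algebraMap A O ϖ ≠ 0 := by
    rw [Ne, FaithfulSMul.algebraMap_eq_zero_iff]; exact hϖ.ne_zero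
  have hpbot : p.map (algebraMap A O) ≠ ⊥ := by
    rw [hpmap, Ne, Ideal.span_singleton_eq_bot]; exact hϖO
  -- the ring is principal
  have hpid : IsPrincipalIdealRing O := by
    apply IsPrincipalIdealRing.of_finite_maximals
    have h1 : (p.primesOver O).Finite := Algebra.QuasiFinite.finite_primesOver p
    exact h1.subset (fun I hI => ⟨hI.isPrime, hover I hI⟩)
  obtain ⟨ϖ', hϖ'⟩ : ∃ ϖ' : O, P = Ideal.span {ϖ'} := (hpid.principal P).principal
  have hPbot : P ≠ ⊥ := by
    intro h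
    apply hpbot
    rw [eq_bot_iff, ← h]
    exact Ideal.map_le_of_le_comap (P.over_def p).le
  have hϖ'0 : ϖ' ≠ 0 := by
    rintro rfl
    apply hPbot
    rw [hϖ', Ideal.span_singleton_eq_bot]
  have hϖ'u : ¬ IsUnit ϖ' := by
    intro h
    apply hP.ne_top
    rw [hϖ', Ideal.span_singleton_eq_top]
    exact h
  letI : Field (O ⧸ P) := Ideal.Quotient.field P
  have hmk : ∀ a : O, Ideal.Quotient.mk P a = 0 ↔ ϖ' ∣ a := by
    intro a
    rw [Ideal.Quotient.eq_zero_iff_mem, hϖ', Ideal.mem_span_singleton]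
  have hfac : ∀ a : O, a ≠ 0 → ∃ (n : ℕ) (u : O), a = ϖ' ^ n * u ∧ Ideal.Quotient.mk P u ≠ 0 := by
    intro a ha
    obtain ⟨n, c, hc, h⟩ := WfDvdMonoid.max_power_factor' ha hϖ'u
    exact ⟨n, c, h, by rwa [Ne, hmk]⟩
  set D' : DVal L (O ⧸ P) := DVal.ofPrime L (Ideal.Quotient.mk P) ϖ' hϖ'0
    ((hmk ϖ').mpr dvd_rfl) hfac with hD'
  have hself := DVal.ofPrime_self (K := L) (Ideal.Quotient.mk P) ϖ' hϖ'0
    ((hmk ϖ').mpr dvd_rfl) hfac
  have hunit : ∀ a : O, Ideal.Quotient.mk P a ≠ 0 → D'.v (algebraMap O L a) = 0 ∧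
      D'.ρ (algebraMap O L a) = Ideal.Quotient.mk P a := fun a ha =>
    DVal.ofPrime_unit (K := L) (Ideal.Quotient.mk P) ϖ' hϖ'0 ((hmk ϖ').mpr dvd_rfl) hfac ha
  obtain ⟨e, u, heu, hu⟩ := hfac _ hϖO
  -- the ramification index
  have he : P.ramificationIdx A = e := by
    rw [Ideal.IsDedekindDomain.ramificationIdx_eq_multiplicity p P hpbot, hpmap, heu]
    apply multiplicity_eq_of_dvd_of_not_dvd
    · rw [hϖ', Ideal.span_singleton_pow, Ideal.dvd_iff_le, Ideal.span_singleton_le_span_singleton]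
      exact Dvd.intro _ rfl
    · rw [hϖ', Ideal.span_singleton_pow, Ideal.dvd_iff_le, Ideal.span_singleton_le_span_singleton,
        pow_succ]
      intro h
      apply hu
      rw [hmk]
      exact (mul_dvd_mul_iff_left (pow_ne_zero e hϖ'0)).mp h
  have hf : P.inertiaDeg A = Module.finrank (A ⧸ p) (O ⧸ P) := Ideal.inertiaDeg_eq_of_isMaximal p P
  have hN : (p.primesOver O).ncard * (e * Module.finrank (A ⧸ p) (O ⧸ P)) =
      Module.finrank K L := by
    have h1 := Ideal.ncard_primesOver_mul_ramificationIdxIn_mul_inertiaDegIn p O (L ≃ₐ[K] L)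
    rw [Ideal.ramificationIdxIn_eq_ramificationIdx p P (L ≃ₐ[K] L),
      Ideal.inertiaDegIn_eq_inertiaDeg p P (L ≃ₐ[K] L), he, hf,
      IsGaloisGroup.card_eq_finrank (L ≃ₐ[K] L) K L] at h1
    exact h1
  -- the residue field extension
  letI algR : Algebra (IsLocalRing.ResidueField A) (O ⧸ P) := Ideal.Quotient.algebraOfLiesOver P p
  have hfd : Module.Finite (IsLocalRing.ResidueField A) (O ⧸ P) :=
    (inferInstance : Module.Finite (A ⧸ p) (O ⧸ P))
  have hN' : (p.primesOver O).ncard * (e * Module.finrank (IsLocalRing.ResidueField A) (O ⧸ P)) =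
      Module.finrank K L := hN
  obtain ⟨j, hj⟩ : ∃ j : IsLocalRing.ResidueField A →+* O ⧸ P,
      j = algebraMap (IsLocalRing.ResidueField A) (O ⧸ P) := ⟨_, rfl⟩
  have hjmk : ∀ a : A, j (IsLocalRing.residue A a) = Ideal.Quotient.mk P (algebraMap A O a) := by
    intro a
    rw [hj]
    rfl
  have hcomp : ∀ a : A, algebraMap O L (algebraMap A O a) = algebraMap K L a := fun a => rfl
  have hc : Ideal.Quotient.mk P u ≠ 0 := hu
  have hu0 : algebraMap O L u ≠ 0 := by
    rw [Ne, FaithfulSMul.algebraMap_eq_zero_iff]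
    rintro rfl
    exact hu (map_zero _)
  have hϖ'L : algebraMap O L ϖ' ≠ 0 := by
    rw [Ne, FaithfulSMul.algebraMap_eq_zero_iff]; exact hϖ'0
  have hunitA : ∀ a : A, IsUnit a → D'.v (algebraMap K L a) = 0 ∧
      D'.ρ (algebraMap K L a) = j (IsLocalRing.residue A a) := by
    intro a ha
    have h1 : Ideal.Quotient.mk P (algebraMap A O a) ≠ 0 := by
      rw [← hjmk]
      exact (_root_.map_ne_zero j).mpr ((residue_ne_zero_iff A).mpr ha)
    have h2 := hunit _ h1
    rw [hcomp] at h2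
    exact ⟨h2.1, by rw [h2.2, hjmk]⟩
  have hϖeq : algebraMap K L ϖ = (algebraMap O L ϖ') ^ e * algebraMap O L u := by
    rw [← hcomp, heu, map_mul, map_pow]
  have hϖv : D'.v (algebraMap K L ϖ) = (e : ℤ) := by
    rw [hϖeq, D'.v_mul _ _ (pow_ne_zero _ hϖ'L) hu0, D'.v_pow hϖ'L, hself.1, (hunit u hu).1]
    simp
  have hϖρ : D'.ρ (algebraMap K L ϖ) = Ideal.Quotient.mk P u := by
    rw [hϖeq, map_mul, map_pow, hself.2, (hunit u hu).2, one_pow, one_mul]
  have h1 := hy.res_eq_zero D' hm hϖ'L hself.1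
  rw [DVal.res_map hm (DVal.ofDVR A ϖ hϖ) D' (algebraMap K L) j e (Ideal.Quotient.mk P u) hc
    (fun a ha => (ofDVR_compat (algebraMap K L) A ϖ hϖ D' j e _ hunitA hϖv hϖρ ha).1)
    (fun a ha => (ofDVR_compat (algebraMap K L) A ϖ hϖ D' j e _ hunitA hϖv hϖρ ha).2)] at h1
  have h2 : KM.map m j (e • (DVal.ofDVR A ϖ hϖ).res hm y) = 0 := by
    rw [map_nsmul, ← Nat.cast_smul_eq_nsmul (ZMod m)]
    exact_mod_cast h1
  have h3 := finrank_smul_eq_zero hm _ (K := IsLocalRing.ResidueField A) (L := O ⧸ P) rfl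
    (y := e • (DVal.ofDVR A ϖ hϖ).res hm y) (by rw [← hj]; exact h2)
  rw [← hN', ← DVal.resL_apply, map_nsmul, DVal.resL_apply, mul_smul, mul_comm e, mul_smul, h3,
    smul_zero]

end descent

end UnrG
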